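import Pool.Agent.Y34.RA.Lie
import Pool.Agent.Y34.RA.Simple
import Pool.Agent.Y34.RA.Rank
import Pool.Agent.Y34.RA.Small

set_option autoImplicit false

/-!
# Simple right alternative Malcev-admissible algebras of characteristic two, in all dimensions

The definitions `RightAlternative`, `LeftAlternative`, `Alternative`, `MalcevAdmissible`,
`IsSimpleAlg`, `comm` are those of the starting file `Existence`; `LieAdm` is in
`Pool/Agent/Y34/RA/Stm.lean`.
-/

namespace Pool.Agent.Results.MP_a52033_al.AllDimensions

open Pool.Agent.Results.MP_a52033_al.Existence Pool.Agent.Y34.RA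

universe u v

/-- (1) Every right alternative algebra over a field of characteristic two, of any dimension, has a
commutator algebra which is a Lie algebra, and it is Malcev-admissible.
(2) Let `F` be ANY field of characteristic two and `c` any cardinal. There is a simple right
alternative, not alternative, Malcev-admissible `F`-algebra of dimension `c` if and only if
`3 ≤ c`. -/
theorem result :
    (∀ (F : Type u) (A : Type v) [Field F] [CharP F 2] [NonUnitalNonAssocRing A] [Module F A],
      RightAlternative A →
        (∀ x y z : A, comm (comm x y) z + comm (comm y z) x + comm (comm z x) y = 0) ∧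
          MalcevAdmissible A) ∧
    ∀ (F : Type u) [Field F] [CharP F 2] (c : Cardinal.{u}),
      (∃ (A : Type u) (_ : NonUnitalNonAssocRing A) (_ : Module F A) (_ : IsScalarTower F A A)
        (_ : SMulCommClass F A A), Module.rank F A = c ∧ IsSimpleAlg F A ∧ RightAlternative A ∧
          ¬ Alternative A ∧ MalcevAdmissible A) ↔ 3 ≤ c := by
  refine ⟨fun F A _ _ _ _ h => t_lie F A h, fun F _ _ c => ⟨?_, fun hc => ?_⟩⟩
  · rintro ⟨A, _, _, _, _, hr, hs, hra, hna, -⟩
    by_contra hlt
    rw [not_le] at hlt
    have hc2 : c ≤ 2 := by
      have h3 : (3 : Cardinal.{u}) = Order.succ (2 : Cardinal.{u}) := by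
        have := Cardinal.nat_succ 2
        norm_num at this
        exact this
      rw [h3] at hlt
      exact Order.lt_succ_iff.1 hlt
    have hfin : Module.Finite F A := by
      rw [← Module.rank_lt_aleph0_iff, hr]
      exact lt_of_le_of_lt hc2 (by exact_mod_cast Cardinal.nat_lt_aleph0 2)
    have hd : Module.finrank F A ≤ 2 := by
      have h4 : ((Module.finrank F A : ℕ) : Cardinal.{u}) ≤ (2 : ℕ) := by
        rw [Module.finrank_eq_rank, hr]
        exact_mod_cast hc2
      exact_mod_cast h4
    exact hna ⟨t_small F A hfin hd hs hra, hra⟩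
  · obtain ⟨ι, κ, _, hι, hκ, hr⟩ := t_rank F c hc
    obtain ⟨h1, h2⟩ := t_right F ι κ
    exact ⟨Ex F ι κ, inferInstance, inferInstance, inferInstance, inferInstance, hr,
      t_simple F ι κ, h1, fun h => h2 h.1, (t_lie F (Ex F ι κ) h1).2⟩

end Pool.Agent.Results.MP_a52033_al.AllDimensions
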